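import Pool.Agent.Q158.Banach

/-!
# MP_b01501_co: `A B⁻¹` need not be piecewise `⌊1/(αβ)⌋`-syndetic

The group is the group of finitary permutations of `ℕ × ℕ`.
-/

namespace Pool.Agent.Results.MP_b01501_co.Finitary

open Q158.Banach

/-- There are an amenable group `G` and sets `A`, `B` of positive upper Banach density such that
`A B⁻¹` is not piecewise `⌊1 / (d(A) d(B))⌋`-syndetic. -/
theorem result : ∃ (G : Type) (_ : Group G), Amenable G ∧ ∃ A B : Set G,
    0 < dens A ∧ 0 < dens B ∧
      ¬ PiecewiseSyndetic ⌊1 / (dens A * dens B)⌋₊ (quo A B) :=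
  result_aux

end Pool.Agent.Results.MP_b01501_co.Finitary
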